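import Pool.Agent.Work.MP_db9399_nc.Base

/-!
# MP_db9399, THEOREM NC: block FIN (translation)
-/

set_option autoImplicit false
set_option linter.unusedSectionVars false

namespace Pool.Agent.Work.MP_db9399_nc.helper1

open Finset Classical
open Pool.Agent.Work.MP_db9399_all (nb)
open Pool.Agent.Work.MP_db9399_nc
open _root_.MP_db9399_co

universe u

variable {V : Type u} [Fintype V]

/-- the precoloured matching as `HD` -/
theorem hd_of {G : SimpleGraph V} {k : ℕ} {H : G.Subgraph} (hH : IsDistThreeMatching H)
    {c₀ : V → Fin k} {t₀ : Sym2 V → Fin k} (hT : IsTotalColoring H.spanningCoe c₀ t₀) :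
    ∃ hp : V → V, HD G k hp (fun v => (c₀ v).val) (fun v => (t₀ s(v, hp v)).val) ∧
      (∀ v, v ∈ H.verts ↔ hp v ≠ v) ∧ ∀ v, hp v ≠ v → H.Adj v (hp v) := by
  have hex : ∀ v, ∃ w, (v ∈ H.verts → H.Adj v w ∧ ∀ w', H.Adj v w' → w' = w) ∧
      (v ∉ H.verts → w = v) := by
    intro v
    by_cases hv : v ∈ H.verts
    · obtain ⟨w, hw, hu⟩ := hH.1 hv
      exact ⟨w, fun _ => ⟨hw, fun w' h => hu w' h⟩, fun h => absurd hv h⟩
    · exact ⟨v, fun h => absurd h hv, fun _ => rfl⟩
  choose hp h1 h2 using hex
  have hin : ∀ v, hp v ≠ v → v ∈ H.verts := by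
    intro v h
    by_contra hv
    exact h (h2 v hv)
  have hadj : ∀ v, v ∈ H.verts → H.Adj v (hp v) := fun v hv => (h1 v hv).1
  have hne : ∀ v, v ∈ H.verts → hp v ≠ v := by
    intro v hv h
    have := hadj v hv
    rw [h] at this
    exact (H.adj_sub this).ne rfl
  have hinv : ∀ v, hp (hp v) = v := by
    intro v
    by_cases hv : v ∈ H.verts
    · have h3 := hadj v hv
      have h4 : hp v ∈ H.verts := H.edge_vert h3.symm
      exact ((h1 (hp v) h4).2 v h3.symm).symm
    · have h3 : hp v = v := h2 v hv
      rw [h3, h3]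
  refine ⟨hp, ⟨hinv, ?_, ?_, ?_, ?_, ?_, ?_, ?_⟩, fun v => ⟨hne v, hin v⟩,
    fun v h => hadj v (hin v h)⟩
  · intro v h
    exact H.adj_sub (hadj v (hin v h))
  · intro v w hv hw hvw hwv
    have hnA : ¬ H.Adj v w := by
      intro h
      exact hwv ((h1 v (hin v hv)).2 w h)
    have hd := hH.2 v (hin v hv) w (hin w hw) hvw hnA
    constructor
    · intro h
      have h3 : G.edist v w ≤ 1 := by
        have := SimpleGraph.Walk.edist_le (SimpleGraph.Walk.cons h SimpleGraph.Walk.nil)
        simpa using this
      have h4 := hd.trans h3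
      revert h4
      decide
    · rintro z ⟨ha, hb⟩
      have h3 : G.edist v w ≤ 2 := by
        have := SimpleGraph.Walk.edist_le
          (SimpleGraph.Walk.cons ha (SimpleGraph.Walk.cons hb SimpleGraph.Walk.nil))
        simpa using this
      have h4 := hd.trans h3
      revert h4
      decide
  · intro v _
    exact (c₀ v).isLt
  · intro v _
    exact (t₀ s(v, hp v)).isLt
  · intro v hv h
    have h3 := hT.vertex v (hp v) (by simpa using hadj v (hin v hv))
    exact h3 (Fin.ext h)
  · intro v hv h
    have h3 := hT.incidence v (hp v) (by simpa using hadj v (hin v hv))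
    exact h3 (Fin.ext h.symm)
  · intro v
    show (t₀ s(hp v, hp (hp v))).val = (t₀ s(v, hp v)).val
    rw [hinv, Sym2.eq_swap]

/-- block FIN -/
theorem stmt_FIN (hM : Stmt_MAIN.{u}) : Stmt_FIN.{u} := by
  refine ⟨1 / 1000000, 1000000, by norm_num, ?_⟩
  intro V _ G _ f k hD hk hnn hout H hH c₀ t₀ hT
  obtain ⟨hp, hHD, hverts, hadjH⟩ := hd_of hH hT
  obtain ⟨d, hdk⟩ : ∃ d, k = d + 2 := ⟨k - 2, by omega⟩
  have hDd : G.maxDegree ≤ d := by omega
  set D := G.maxDegree with hDdef
  -- bad spots
  let cnn : V → ℕ := fun v => (univ.filter (fun w => f w = f v ∧ w ≠ v ∧ ¬ G.Adj v w)).card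
  let csz : V → ℕ := fun v => (univ.filter (fun w => f w = f v)).card
  let bad : V → Prop := fun v => ∃ w, f w = f v ∧ csz w ≤ 2 * cnn w + 2
  have hcnn : ∀ v, 1000000 * cnn v ≤ D := by
    intro v
    have h := hnn v
    have h2 : (1000000 : ℝ) * cnn v ≤ D := by
      have : ((cnn v : ℕ) : ℝ) ≤ 1 / 1000000 * D := h
      linarith
    exact_mod_cast h2
  have hco : ∀ v, 1000000 * (univ.filter (fun w => f w ≠ f v ∧ G.Adj v w)).card ≤ D := by
    intro v
    have h := hout v
    have h2 : (1000000 : ℝ) * (univ.filter (fun w => f w ≠ f v ∧ G.Adj v w)).card ≤ D := by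
      linarith
    exact_mod_cast h2
  -- representatives
  have hrep : ∃ rep : ℕ → V → V, ∀ n v, f v = n → (f (rep n v) = n ∧
      ∀ w, f w = n → rep n w = rep n v) := by
    refine ⟨fun n v => if h : ∃ u, f u = n then h.choose else v, ?_⟩
    intro n v hv
    have h : ∃ u, f u = n := ⟨v, hv⟩
    simp only [dif_pos h]
    exact ⟨h.choose_spec, fun _ _ => trivial⟩
  obtain ⟨rep, hrep⟩ := hrep
  let f' : V → V := fun v => if bad v then v else rep (f v) v
  have hbadc : ∀ v w, f v = f w → (bad v ↔ bad w) := by
    intro v w h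
    simp only [bad]
    rw [h]
  have hfb : ∀ v, bad v → f' v = v := fun v h => if_pos h
  have hfg : ∀ v, ¬ bad v → f' v = rep (f v) v := fun v h => if_neg h
  have hff' : ∀ v w, f' v = f' w → v = w ∨ (¬ bad v ∧ f v = f w) := by
    intro v w h
    by_cases h1 : bad v
    · by_cases h2 : bad w
      · left; rw [hfb v h1, hfb w h2] at h; exact h
      · exfalso
        rw [hfb v h1, hfg w h2] at h
        have h3 := (hrep (f w) w rfl).1
        rw [← h] at h3
        exact h2 ((hbadc v w h3).mp h1)
    · by_cases h2 : bad w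
      · exfalso
        rw [hfg v h1, hfb w h2] at h
        have h3 := (hrep (f v) v rfl).1
        rw [h] at h3
        exact h1 ((hbadc w v h3).mp h2)
      · right
        rw [hfg v h1, hfg w h2] at h
        have h3 := (hrep (f v) v rfl).1
        have h4 := (hrep (f w) w rfl).1
        rw [h] at h3
        exact ⟨h1, h3.symm.trans h4⟩
  have hgood : ∀ v w, ¬ bad v → f v = f w → f' v = f' w := by
    intro v w h1 h2
    have h3 : ¬ bad w := fun h => h1 ((hbadc v w h2).mpr h)
    rw [hfg v h1, hfg w h3, ← h2]
    exact ((hrep (f v) v rfl).2 w h2.symm).symm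
  have hclb : ∀ v, bad v → cl f' (f' v) = {v} := by
    intro v hv
    ext w
    rw [mem_cl, Finset.mem_singleton]
    constructor
    · intro h
      rcases hff' w v h with h | ⟨h1, h2⟩
      · exact h
      · exact absurd ((hbadc w v h2).mpr hv) h1
    · rintro rfl; rfl
  have hclg : ∀ v, ¬ bad v → cl f' (f' v) = univ.filter (fun w => f w = f v) := by
    intro v hv
    ext w
    rw [mem_cl, Finset.mem_filter]
    constructor
    · intro h
      rcases hff' w v h with h | ⟨_, h2⟩
      · rw [h]; exact ⟨Finset.mem_univ _, rfl⟩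
      · exact ⟨Finset.mem_univ _, h2⟩
    · rintro ⟨_, h⟩
      exact (hgood v w hv h.symm).symm
  have hctx : NCtx G d (d / 100000) f' hp (fun v => (c₀ v).val)
      (fun v => (t₀ s(v, hp v)).val) := by
    refine ⟨by omega, by omega, ?_, ?_, ?_, ?_, ?_⟩
    · intro v
      refine le_trans ?_ hDd
      refine le_trans (le_of_eq ?_) (G.degree_le_maxDegree v)
      rw [← SimpleGraph.card_neighborFinset_eq_degree]
      congr 1
      ext w
      rw [mem_nb, SimpleGraph.mem_neighborFinset]
    · -- od
      intro v
      by_cases hv : bad v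
      · obtain ⟨w, hw1, hw2⟩ := hv
        have h1 : (out G f' v) ⊆ (univ.filter (fun w => f w ≠ f v ∧ G.Adj v w)) ∪
            (univ.filter (fun u => f u = f w)).erase v := by
          intro u hu
          rw [mem_out] at hu
          rw [Finset.mem_union, Finset.mem_filter, Finset.mem_erase, Finset.mem_filter]
          by_cases h : f u = f v
          · exact Or.inr ⟨hu.1.ne', Finset.mem_univ _, h.trans hw1.symm⟩
          · exact Or.inl ⟨Finset.mem_univ _, h, hu.1⟩
        have h2 := Finset.card_le_card h1
        have h3 := Finset.card_union_le (univ.filter (fun w => f w ≠ f v ∧ G.Adj v w))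
          ((univ.filter (fun u => f u = f w)).erase v)
        have h4 : ((univ.filter (fun u => f u = f w)).erase v).card + 1 ≤ csz w := by
          rw [Finset.card_erase_add_one]
          rw [Finset.mem_filter]
          exact ⟨Finset.mem_univ _, hw1.symm⟩
        have h5 := hco v
        have h6 := hcnn w
        omega
      · have h1 : (out G f' v) ⊆ (univ.filter (fun w => f w ≠ f v ∧ G.Adj v w)) := by
          intro u hu
          rw [mem_out] at hu
          rw [Finset.mem_filter]
          exact ⟨Finset.mem_univ _, fun h => hu.2 (hgood v u hv h.symm).symm, hu.1⟩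
        have h2 := Finset.card_le_card h1
        have h5 := hco v
        omega
    · -- inn
      intro v
      by_cases hv : bad v
      · rw [hclb v hv]
        have : nn G {v} v = ∅ := by
          ext w
          rw [mem_nn, Finset.mem_singleton]
          simp only [Finset.notMem_empty, iff_false]
          rintro ⟨h1, h2, _⟩
          exact h2 h1
        rw [this, Finset.card_empty]
        omega
      · rw [hclg v hv]
        have h1 : (nn G (univ.filter (fun w => f w = f v)) v).card ≤ cnn v := by
          apply Finset.card_le_card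
          intro w hw
          rw [mem_nn, Finset.mem_filter] at hw
          rw [Finset.mem_filter]
          exact ⟨Finset.mem_univ _, hw.1.2, hw.2.1, hw.2.2⟩
        have h2 := hcnn v
        omega
    · -- sz
      intro v
      by_cases hv : bad v
      · left
        rw [hclb v hv, Finset.card_singleton]
      · right
        rw [hclg v hv]
        have h1 : (nn G (univ.filter (fun w => f w = f v)) v).card ≤ cnn v := by
          apply Finset.card_le_card
          intro w hw
          rw [mem_nn, Finset.mem_filter] at hw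
          rw [Finset.mem_filter]
          exact ⟨Finset.mem_univ _, hw.1.2, hw.2.1, hw.2.2⟩
        have h2 : ¬ csz v ≤ 2 * cnn v + 2 := fun h => hv ⟨v, rfl, h⟩
        have h3 : csz v = (univ.filter (fun w => f w = f v)).card := rfl
        omega
    · rw [← hdk]; exact hHD
  obtain ⟨c, t, hlt, hprop, hsym, hte, hinj, hext⟩ := hM G d (d / 100000) f' hp _ _ hctx
  have hkpos : 0 < k := by omega
  let C : V → Fin k := fun v => ⟨c v, by rw [hdk]; exact hlt v⟩
  have htl : ∀ v w, G.Adj v w → t v w < k := fun v w h => by rw [hdk]; exact (hte v w h).1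
  let T : Sym2 V → Fin k := Sym2.lift ⟨fun v w => if h : G.Adj v w then ⟨t v w, htl v w h⟩
    else ⟨0, hkpos⟩, by
      intro v w
      beta_reduce
      by_cases h : G.Adj v w
      · rw [dif_pos h, dif_pos h.symm]
        exact Fin.ext (hsym v w)
      · rw [dif_neg h, dif_neg (fun hh => h hh.symm)]⟩
  have hTv : ∀ v w, G.Adj v w → (T s(v, w)).val = t v w := by
    intro v w h
    simp only [T, Sym2.lift_mk]
    rw [dif_pos h]
  refine ⟨C, T, ⟨?_, ?_, ?_⟩, ?_, ?_⟩
  · intro u v h heq
    exact hprop u v h (congrArg Fin.val heq)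
  · intro u v w h1 h2 hvw heq
    apply hvw
    apply hinj u (by rw [Finset.mem_coe, mem_nb]; exact h1)
      (by rw [Finset.mem_coe, mem_nb]; exact h2)
    rw [← hTv u v h1, ← hTv u w h2, heq]
  · intro u v h heq
    apply (hte u v h).2
    rw [← hTv u v h, heq]
  · intro v hv
    apply Fin.ext
    exact (hext v ((hverts v).mp hv)).1
  · intro e
    induction e using Sym2.ind with
    | _ v w =>
      intro he
      rw [SimpleGraph.Subgraph.mem_edgeSet] at he
      have hv : v ∈ H.verts := H.edge_vert he
      have hne := (hverts v).mp hv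
      have h1 := hadjH v hne
      obtain ⟨w0, _, hu⟩ := hH.1 hv
      have hw : w = hp v := (hu w he).trans (hu (hp v) h1).symm
      apply Fin.ext
      rw [hTv v w (H.adj_sub he), hw]
      exact (hext v hne).2

end Pool.Agent.Work.MP_db9399_nc.helper1
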