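import Pool.Agent.Work.MP_db9399_nc.Base

/-!
# MP_db9399, THEOREM NC: block GRS (greedy colouring with caps)
-/

set_option autoImplicit false

namespace Pool.Agent.Work.MP_db9399_nc.helper1

open Finset Classical
open Pool.Agent.Work.MP_db9399_nc

universe u

theorem grs_aux {ι : Type u} [Fintype ι] {β : Type u} (cf : ι → ι → Prop) (p q : ι → β)
    (s : β → ℕ) (Q a m : ℕ) (P : Finset ℕ) (Z : ι → Finset ℕ) (hsym : ∀ i j, cf i j → cf j i)
    (ha : ∀ i, (univ.filter (fun j => cf i j)).card ≤ a) (hZ : ∀ i, (Z i).card ≤ m)
    (hs : ∀ j, 1 ≤ s j)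
    (hQ : ∀ j, (univ.filter (fun i => p i = j ∨ q i = j)).card ≤ Q * s j)
    (hP : a + m + 2 * Q < P.card) (S : Finset ι) :
    ∃ t : ι → ℕ, (∀ i ∈ S, t i ∈ P ∧ t i ∉ Z i) ∧
      (∀ i ∈ S, ∀ j ∈ S, i ≠ j → cf i j → t i ≠ t j) ∧
      ∀ j b, (S.filter (fun i => (p i = j ∨ q i = j) ∧ t i = b)).card ≤ s j := by
  induction S using Finset.induction_on with
  | empty => exact ⟨fun _ => 0, by simp, by simp, by simp⟩
  | @insert i0 S hi0 ih =>
    obtain ⟨t, ht1, ht2, ht3⟩ := ih
    -- saturated colours
    let sat : β → Finset ℕ := fun j =>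
      P.filter (fun b => s j ≤ (S.filter (fun i => (p i = j ∨ q i = j) ∧ t i = b)).card)
    have hsat : ∀ j, (sat j).card ≤ Q := by
      intro j
      have h1 : (sat j).card * s j ≤
          ∑ b ∈ sat j, (S.filter (fun i => (p i = j ∨ q i = j) ∧ t i = b)).card := by
        rw [← smul_eq_mul]
        apply Finset.card_nsmul_le_sum
        intro b hb
        exact (Finset.mem_filter.mp hb).2
      have h2 : ∑ b ∈ sat j, (S.filter (fun i => (p i = j ∨ q i = j) ∧ t i = b)).card =
          ((sat j).biUnion
            (fun b => S.filter (fun i => (p i = j ∨ q i = j) ∧ t i = b))).card := by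
        rw [Finset.card_biUnion]
        intro b _ b' _ hbb
        rw [Function.onFun, Finset.disjoint_left]
        intro i hi hi'
        exact hbb ((Finset.mem_filter.mp hi).2.2.symm.trans (Finset.mem_filter.mp hi').2.2)
      have h3 : ((sat j).biUnion
            (fun b => S.filter (fun i => (p i = j ∨ q i = j) ∧ t i = b))).card ≤
          (univ.filter (fun i => p i = j ∨ q i = j)).card := by
        apply Finset.card_le_card
        intro i hi
        rw [Finset.mem_biUnion] at hi
        obtain ⟨b, _, hb⟩ := hi
        exact Finset.mem_filter.mpr ⟨Finset.mem_univ _, (Finset.mem_filter.mp hb).2.1⟩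
      have h4 : (sat j).card * s j ≤ Q * s j := by
        calc _ ≤ _ := h1
          _ = _ := h2
          _ ≤ _ := h3
          _ ≤ _ := hQ j
      exact Nat.le_of_mul_le_mul_right h4 (hs j)
    have hex : ∃ b ∈ P, b ∉ Z i0 ∪ ((univ.filter (fun j => cf i0 j)).image t) ∪ sat (p i0) ∪
        sat (q i0) := by
      by_contra hcon
      push Not at hcon
      have hsub : P ⊆ Z i0 ∪ ((univ.filter (fun j => cf i0 j)).image t) ∪ sat (p i0) ∪
        sat (q i0) := fun b hb => hcon b hb
      have h1 := Finset.card_le_card hsub
      have h2 := Finset.card_union_le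
        (Z i0 ∪ ((univ.filter (fun j => cf i0 j)).image t) ∪ sat (p i0)) (sat (q i0))
      have h3 := Finset.card_union_le
        (Z i0 ∪ ((univ.filter (fun j => cf i0 j)).image t)) (sat (p i0))
      have h4 := Finset.card_union_le (Z i0) ((univ.filter (fun j => cf i0 j)).image t)
      have h5 := Finset.card_image_le (s := univ.filter (fun j => cf i0 j)) (f := t)
      have h6 := ha i0
      have h7 := hZ i0
      have h8 := hsat (p i0)
      have h9 := hsat (q i0)
      omega
    obtain ⟨b0, hb0P, hb0⟩ := hex
    simp only [Finset.mem_union, not_or] at hb0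
    obtain ⟨⟨⟨hbZ, hbim⟩, hbp⟩, hbq⟩ := hb0
    have hne : ∀ i ∈ S, i ≠ i0 := fun i hi h => hi0 (h ▸ hi)
    refine ⟨Function.update t i0 b0, ?_, ?_, ?_⟩
    · intro i hi
      rcases Finset.mem_insert.mp hi with rfl | hi
      · rw [Function.update_self]; exact ⟨hb0P, hbZ⟩
      · rw [Function.update_of_ne (hne i hi)]; exact ht1 i hi
    · intro i hi j hj hij hc
      rcases Finset.mem_insert.mp hi with hi' | hi'
      · rcases Finset.mem_insert.mp hj with hj' | hj'
        · exact absurd (hi'.trans hj'.symm) hij
        · rw [hi', Function.update_self, Function.update_of_ne (hne j hj')]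
          intro h
          apply hbim
          rw [h]
          exact Finset.mem_image_of_mem _
            (Finset.mem_filter.mpr ⟨Finset.mem_univ _, hi' ▸ hc⟩)
      · rcases Finset.mem_insert.mp hj with hj' | hj'
        · rw [hj', Function.update_self, Function.update_of_ne (hne i hi')]
          intro h
          apply hbim
          rw [← h]
          exact Finset.mem_image_of_mem _
            (Finset.mem_filter.mpr ⟨Finset.mem_univ _, hsym _ _ (hj' ▸ hc)⟩)
        · rw [Function.update_of_ne (hne i hi'), Function.update_of_ne (hne j hj')]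
          exact ht2 i hi' j hj' hij hc
    · intro j b
      have hfil : S.filter (fun i => (p i = j ∨ q i = j) ∧ Function.update t i0 b0 i = b) =
          S.filter (fun i => (p i = j ∨ q i = j) ∧ t i = b) := by
        apply Finset.filter_congr
        intro i hi
        rw [Function.update_of_ne (hne i hi)]
      rw [Finset.filter_insert]
      split_ifs with hcond
      · rw [Function.update_self] at hcond
        obtain ⟨hpq, hbb⟩ := hcond
        refine (Finset.card_insert_le _ _).trans ?_
        rw [hfil]
        have hns : b0 ∉ sat j := by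
          rcases hpq with h | h
          · rw [← h]; exact hbp
          · rw [← h]; exact hbq
        have : ¬ s j ≤ (S.filter (fun i => (p i = j ∨ q i = j) ∧ t i = b0)).card := by
          intro h
          exact hns (Finset.mem_filter.mpr ⟨hb0P, h⟩)
        rw [hbb] at this
        omega
      · rw [hfil]; exact ht3 j b

/-- block GRS -/
theorem stmt_GRS : Stmt_GRS.{u} := by
  intro ι _ β cf p q s Q a m P Z hsym ha hZ hs hQ hP
  obtain ⟨t, h1, h2, h3⟩ := grs_aux cf p q s Q a m P Z hsym ha hZ hs hQ hP univ
  exact ⟨t, fun i => h1 i (Finset.mem_univ _),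
    fun i j => h2 i (Finset.mem_univ _) j (Finset.mem_univ _), h3⟩

end Pool.Agent.Work.MP_db9399_nc.helper1
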