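import Pool.Agent.Work.MP_db9399_nc.Base

/-!
# MP_db9399, THEOREM NC: block MAIN (gluing of the spots)
-/

set_option autoImplicit false
set_option linter.unusedSectionVars false

namespace Pool.Agent.Work.MP_db9399_nc.helper1

open Finset Classical
open Pool.Agent.Work.MP_db9399_all (nb)
open Pool.Agent.Work.MP_db9399_nc

universe u

variable {V : Type u} [Fintype V]

/-- counting on a subtype -/
theorem sub_card (f : V → V) (i : V) (P : V → Prop) (Q : {v : V // f v = i} → Prop)
    {i1 : DecidablePred P} {i2 : DecidablePred Q} {i3 : Fintype {v : V // f v = i}}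
    (h : ∀ v, Q v ↔ P v.1) :
    (@Finset.filter _ Q i2 (@Finset.univ _ i3)).card =
      (@Finset.filter _ P i1 (cl f i)).card := by
  refine Finset.card_bij (fun v _ => v.1) ?_ ?_ ?_
  · intro v hv
    rw [Finset.mem_filter] at hv ⊢
    exact ⟨mem_cl.mpr v.2, (h v).mp hv.2⟩
  · intro v _ w _ h
    exact Subtype.ext h
  · intro v hv
    rw [Finset.mem_filter, mem_cl] at hv
    exact ⟨⟨v, hv.1⟩, Finset.mem_filter.mpr ⟨Finset.mem_univ _, (h _).mpr hv.2⟩, rfl⟩

theorem sub_cardS (f : V → V) (i : V) (P : V → Prop) (S : Finset {v : V // f v = i})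
    {i1 : DecidablePred P} (h : ∀ v, v ∈ S ↔ P v.1) :
    S.card = (@Finset.filter _ P i1 (cl f i)).card := by
  refine Finset.card_bij (fun v _ => v.1) ?_ ?_ ?_
  · intro v hv
    rw [Finset.mem_filter]
    exact ⟨mem_cl.mpr v.2, (h v).mp hv⟩
  · intro v _ w _ h
    exact Subtype.ext h
  · intro v hv
    rw [Finset.mem_filter, mem_cl] at hv
    exact ⟨⟨v, hv.1⟩, (h _).mpr hv.2, rfl⟩

theorem sub_card_le (f : V → V) (i : V) (P : V → Prop) (Q : {v : V // f v = i} → Prop)
    {i1 : DecidablePred P} {i2 : DecidablePred Q} {i3 : Fintype {v : V // f v = i}}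
    (h : ∀ v, Q v → P v.1) :
    (@Finset.filter _ Q i2 (@Finset.univ _ i3)).card ≤
      (@Finset.filter _ P i1 (cl f i)).card := by
  refine Finset.card_le_card_of_injOn (fun v => v.1) ?_ ?_
  · intro v hv
    rw [Finset.mem_coe, Finset.mem_filter] at hv
    rw [Finset.mem_coe, Finset.mem_filter]
    exact ⟨mem_cl.mpr v.2, h v hv.2⟩
  · intro v _ w _ h
    exact Subtype.ext h

theorem sub_card_univ (f : V → V) (i : V) :
    Fintype.card {v : V // f v = i} = (cl f i).card := by
  rw [Fintype.card_subtype]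
  rfl

/-- the colouring of one spot -/
theorem loc_spot (hL : Stmt_LOC.{u}) (G : SimpleGraph V) (d x : ℕ) (f hp : V → V)
    (c0 g c a : V → ℕ) (t' : V → V → ℕ) (hc : NCtx G d x f hp c0 g)
    (hv : VC G d x f hp c0 g (range (460 * x + 15)) c a)
    (hX : XC G d x f hp g (range (460 * x + 15)) c t') (i : V) :
    ∃ s : V → V → ℕ, (∀ v w, s v w = s w v) ∧
      (∀ v w, f v = i → f w = i → G.Adj v w → s v w < d + 2 ∧ s v w ≠ c v) ∧
      (∀ v w, f v = i → f w = i → G.Adj v w → ∀ z ∈ out G f v, s v w ≠ t' v z) ∧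
      (∀ v, f v = i → ∀ w w', f w = i → f w' = i → G.Adj v w → G.Adj v w' →
        s v w = s v w' → w = w') ∧
      ∀ v, f v = i → hp v ≠ v → f (hp v) = i → s v (hp v) = g v := by
  have hx1 := hc.x1
  have hxd := hc.xd
  -- the colour γ
  obtain ⟨γ, hγ1, hγ2, hγ3⟩ : ∃ γ : ℕ, (∀ v, f v = i → hp v ≠ v → g v = γ) ∧ γ < d + 2 ∧
      a i ≠ γ := by
    by_cases h : ∃ u, f u = i ∧ hp u ≠ u
    · obtain ⟨u, hu1, hu2⟩ := h
      refine ⟨g u, ?_, hc.hd.glt u hu2, ?_⟩
      · intro v hv1 hv2
        by_cases huv : u = v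
        · rw [huv]
        · have := hc.pair (hu1.trans hv1.symm) hu2 hv2 huv
          rw [this, hc.hd.gs]
      · rw [← hu1]; exact hv.ag u hu2
    · refine ⟨0, ?_, by omega, ?_⟩
      · intro v hv1 hv2
        exact absurd ⟨v, hv1, hv2⟩ h
      · intro h0
        apply hv.aE i
        rw [h0, Finset.mem_range]
        omega
  let C := {v : V // f v = i}
  let Gi : SimpleGraph C := G.comap (fun v => v.1)
  let hm : C → C := fun v => if h : f (hp v.1) = i then ⟨hp v.1, h⟩ else v
  let F : C → Finset ℕ := fun v => (out G f v.1).image (t' v.1)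
  have hF : ∀ (v : C) (b : ℕ), b ∈ F v ↔ ∃ w ∈ out G f v.1, t' v.1 w = b := by
    intro v b
    simp only [F, Finset.mem_image]
  have hmv : ∀ v : C, hm v ≠ v → f (hp v.1) = i ∧ hp v.1 ≠ v.1 ∧ (hm v).1 = hp v.1 := by
    intro v h
    by_cases h1 : f (hp v.1) = i
    · have h2 : hm v = ⟨hp v.1, h1⟩ := by simp only [hm]; rw [dif_pos h1]
      refine ⟨h1, ?_, by rw [h2]⟩
      intro h3
      apply h
      rw [h2]
      exact Subtype.ext h3
    · exfalso
      apply h
      simp only [hm]
      rw [dif_neg h1]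
  have hmv2 : ∀ v : C, f (hp v.1) = i → (hm v).1 = hp v.1 := by
    intro v h1
    simp only [hm]; rw [dif_pos h1]
  have hloc : Loc Gi d x (fun v => c v.1) F (range (460 * x + 15)) hm γ (a i) := by
    refine ⟨hx1, hxd, ?_, ?_, ?_, ?_, ?_, ?_, ?_, ?_, ?_, ?_, ?_, ?_, hγ2, hv.alt i, hv.aE i,
      hγ3, ?_, ?_, ?_, ?_, ?_, ?_⟩
    · -- deg
      intro v
      have h1 := deg_split G f v.1
      have h2 := hc.deg v.1
      have h3 : (F v).card ≤ (out G f v.1).card := Finset.card_image_le
      have h4 : (nb Gi v).card ≤ ((nb G v.1).filter (fun w => f w = f v.1)).card := by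
        refine Finset.card_le_card_of_injOn (fun w => w.1) ?_ ?_
        · intro w hw
          have hw' : w ∈ nb Gi v := hw
          rw [mem_nb] at hw'
          rw [Finset.mem_coe, Finset.mem_filter, mem_nb]
          exact ⟨hw', w.2.trans v.2.symm⟩
        · intro w _ w' _ h
          exact Subtype.ext h
      omega
    · -- inn
      intro v
      refine le_trans ?_ (hc.inn v.1)
      refine Finset.card_le_card_of_injOn (fun w => w.1) ?_ ?_
      · intro w hw
        have hw' : w ∈ nn Gi univ v := hw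
        rw [mem_nn] at hw'
        rw [Finset.mem_coe, mem_nn, mem_cl]
        exact ⟨w.2.trans v.2.symm, fun h => hw'.2.1 (Subtype.ext h), hw'.2.2⟩
      · intro w _ w' _ h
        exact Subtype.ext h
    · -- Fx
      intro v
      exact Finset.card_image_le.trans (hc.od v.1)
    · intro v; exact hv.lt v.1
    · intro v h
      rw [hF] at h
      obtain ⟨w, hw, h⟩ := h
      exact hX.tc v.1 w hw h
    · intro v w h
      exact hv.prop v.1 w.1 h
    · intro b
      exact le_trans (le_of_eq (sub_card f i (fun v => c v = b) _ (fun _ => Iff.rfl)))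
        (hv.two i b)
    · refine le_trans (le_of_eq ?_) (hv.rep i)
      congr 1
      apply Finset.filter_congr
      intro b _
      rw [← sub_card f i (fun v => c v = b) (fun v : C => c v.1 = b) (fun _ => Iff.rfl)]
    · intro h v w hvw
      rw [sub_card_univ] at h
      apply Subtype.ext
      exact hv.inj i h (by simpa [mem_cl] using v.2) (by simpa [mem_cl] using w.2) hvw
    · rw [Finset.card_range]
    · intro b hb
      rw [Finset.mem_range] at hb
      omega
    · -- FE
      intro v b hb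
      rw [hF] at hb
      obtain ⟨w, hw, rfl⟩ := hb
      rw [Finset.mem_insert]
      by_cases h : w = hp v.1
      · left
        have h1 : hp v.1 ≠ v.1 := by
          intro h2
          rw [mem_out] at hw
          exact hw.1.ne (by rw [h, h2])
        have h2 : f (hp v.1) ≠ f v.1 := by
          rw [← h]; exact (mem_out.mp hw).2
        rw [h, hX.th v.1 h1 h2]
        exact hγ1 v.1 v.2 h1
      · right
        exact hX.mem v.1 w hw h
    · -- ac
      intro v
      have := hv.ac v.1
      rwa [v.2] at this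
    · -- hinv
      intro v
      by_cases h1 : f (hp v.1) = i
      · have h2 := hmv2 v h1
        apply Subtype.ext
        rw [hmv2 (hm v) (by rw [h2, hc.hd.inv]; exact v.2), h2, hc.hd.inv]
      · have h2 : hm v = v := by simp only [hm]; rw [dif_neg h1]
        rw [h2, h2]
    · -- hadj
      intro v h
      obtain ⟨h1, h2, h3⟩ := hmv v h
      have h4 := hγ1 v.1 v.2 h2
      refine ⟨?_, ?_, ?_⟩
      · show G.Adj v.1 (hm v).1
        rw [h3]
        exact hc.hd.adj v.1 h2
      · show γ ≠ c v.1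
        rw [← h4, hv.ext v.1 h2]
        exact (hc.hd.cg v.1 h2).symm
      · rw [hF]
        rintro ⟨w, hw, hb⟩
        have h5 : w ≠ hp v.1 := by
          intro h6
          rw [mem_out, h6] at hw
          exact hw.2 (h1.trans v.2.symm)
        exact hX.tg v.1 w hw h5 h2 (hb.trans h4.symm)
    · -- hcard
      exact le_trans (sub_card_le f i (fun v => hp v ≠ v) _ (fun w hw => (hmv w hw).2.1))
        (hc.hcard i)
    · -- load
      intro h b
      rw [sub_card_univ] at h ⊢
      refine le_trans (le_of_eq ?_) (hX.load i b h)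
      congr 1
      exact sub_card f i (fun v => ∃ w ∈ out G f v, t' v w = b) _ (fun v => hF v b)
    · -- par
      intro h
      rw [sub_card_univ] at h ⊢
      rcases hX.par i h with h1 | h1
      · left
        refine le_trans (le_of_eq ?_) h1
        congr 1
        exact sub_card f i (fun v => (out G f v).Nonempty) _
          (fun v => by simp only [F, Finset.image_nonempty])
      · right
        refine le_trans (le_of_eq ?_) h1
        congr 2
        apply Finset.filter_congr
        intro b _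
        rw [sub_cardS f i (fun v => c v ≠ b ∧ ∀ w ∈ out G f v, t' v w ≠ b) _ (fun v => by
          simp only [Finset.mem_sdiff, mem_dirty, hF, Finset.mem_univ, true_and, not_or,
            not_exists, not_and])]
  obtain ⟨t, ht⟩ := hL Gi d x (fun v => c v.1) F (range (460 * x + 15)) hm γ (a i) hloc
  let s : V → V → ℕ := fun v w => if h : f v = i ∧ f w = i then t ⟨v, h.1⟩ ⟨w, h.2⟩ else 0
  have hs : ∀ v w (h1 : f v = i) (h2 : f w = i), s v w = t ⟨v, h1⟩ ⟨w, h2⟩ := by
    intro v w h1 h2
    simp only [s]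
    rw [dif_pos ⟨h1, h2⟩]
  refine ⟨s, ?_, ?_, ?_, ?_, ?_⟩
  · intro v w
    by_cases h : f v = i ∧ f w = i
    · rw [hs v w h.1 h.2, hs w v h.2 h.1]
      exact ht.sym _ _
    · have h' : ¬ (f w = i ∧ f v = i) := fun hh => h ⟨hh.2, hh.1⟩
      simp only [s]
      rw [dif_neg h, dif_neg h']
  · intro v w h1 h2 h3
    rw [hs v w h1 h2]
    exact ⟨ht.lt _ _ h3, ht.tc ⟨v, h1⟩ ⟨w, h2⟩ h3⟩
  · intro v w h1 h2 h3 z hz
    rw [hs v w h1 h2]
    intro h
    apply ht.tF ⟨v, h1⟩ ⟨w, h2⟩ h3
    rw [hF]
    exact ⟨z, hz, h.symm⟩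
  · intro v h1 w w' h2 h3 h4 h5 h6
    rw [hs v w h1 h2, hs v w' h1 h3] at h6
    have m1 : (⟨w, h2⟩ : C) ∈ (nb Gi ⟨v, h1⟩ : Set C) := by
      rw [Finset.mem_coe, mem_nb]; exact h4
    have m2 : (⟨w', h3⟩ : C) ∈ (nb Gi ⟨v, h1⟩ : Set C) := by
      rw [Finset.mem_coe, mem_nb]; exact h5
    exact congrArg Subtype.val (ht.inj ⟨v, h1⟩ m1 m2 h6)
  · intro v h1 h2 h3
    have h4 : hm ⟨v, h1⟩ ≠ ⟨v, h1⟩ := by
      intro h
      apply h2
      have := congrArg Subtype.val h
      rwa [hmv2 ⟨v, h1⟩ h3] at this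
    have h5 := ht.th ⟨v, h1⟩ h4
    rw [hs v (hp v) h1 h3, hγ1 v h1 h2, ← h5]
    congr 1
    exact (Subtype.ext (hmv2 ⟨v, h1⟩ h3)).symm

/-- block MAIN -/
theorem stmt_MAIN (hV : Stmt_VCOL.{u}) (hK : Stmt_XKEEP.{u}) (hR : Stmt_XREST.{u})
    (hL : Stmt_LOC.{u}) : Stmt_MAIN.{u} := by
  intro V _ G d x f hp c0 g hc
  have hx1 := hc.x1
  have hxd := hc.xd
  obtain ⟨c, a, hv⟩ := hV G d x f hp c0 g hc (range (460 * x + 15))
    (by rw [Finset.card_range]; omega)
  obtain ⟨Kp, t1, h1⟩ := hK G d x f hp c0 g c hc hv.prop hv.ext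
  obtain ⟨t', hX⟩ := hR G d x f hp c0 g c Kp t1 hc hv.prop hv.ext h1
  have hs := fun i => loc_spot hL G d x f hp c0 g c a t' hc hv hX i
  choose s s1 s2 s3 s4 s5 using hs
  let T : V → V → ℕ := fun v w => if f v = f w then s (f v) v w else t' v w
  have Tin : ∀ v w, f v = f w → T v w = s (f v) v w := by
    intro v w h; simp only [T]; rw [if_pos h]
  have Tout : ∀ v w, f v ≠ f w → T v w = t' v w := by
    intro v w h; simp only [T]; rw [if_neg h]
  refine ⟨c, T, hv.lt, hv.prop, ?_, ?_, ?_, ?_⟩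
  · intro v w
    by_cases h : f v = f w
    · rw [Tin v w h, Tin w v h.symm, s1, h]
    · rw [Tout v w h, Tout w v (Ne.symm h), hX.sym]
  · intro v w hvw
    by_cases h : f v = f w
    · rw [Tin v w h]
      exact s2 (f v) v w rfl h.symm hvw
    · rw [Tout v w h]
      have hm : w ∈ out G f v := mem_out.mpr ⟨hvw, Ne.symm h⟩
      refine ⟨?_, hX.tc v w hm⟩
      by_cases h2 : w = hp v
      · have h3 : hp v ≠ v := by rw [← h2]; exact hvw.ne'
        have h4 : f (hp v) ≠ f v := by rw [← h2]; exact Ne.symm h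
        rw [h2, hX.th v h3 h4]
        exact hc.hd.glt v h3
      · have := hX.mem v w hm h2
        rw [Finset.mem_range] at this
        omega
  · intro v w hw w' hw' heq
    have hw1 : G.Adj v w := by rw [Finset.mem_coe, mem_nb] at hw; exact hw
    have hw2 : G.Adj v w' := by rw [Finset.mem_coe, mem_nb] at hw'; exact hw'
    by_cases h : f v = f w
    · by_cases h' : f v = f w'
      · rw [Tin v w h, Tin v w' h'] at heq
        exact s4 (f v) v rfl w w' h.symm h'.symm hw1 hw2 heq
      · rw [Tin v w h, Tout v w' h'] at heq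
        exact absurd heq (s3 (f v) v w rfl h.symm hw1 w' (mem_out.mpr ⟨hw2, Ne.symm h'⟩))
    · by_cases h' : f v = f w'
      · rw [Tout v w h, Tin v w' h'] at heq
        exact absurd heq.symm (s3 (f v) v w' rfl h'.symm hw2 w (mem_out.mpr ⟨hw1, Ne.symm h⟩))
      · rw [Tout v w h, Tout v w' h'] at heq
        exact hX.inj v (by rw [Finset.mem_coe]; exact mem_out.mpr ⟨hw1, Ne.symm h⟩)
          (by rw [Finset.mem_coe]; exact mem_out.mpr ⟨hw2, Ne.symm h'⟩) heq
  · intro v h
    refine ⟨hv.ext v h, ?_⟩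
    by_cases h' : f v = f (hp v)
    · rw [Tin v _ h']
      exact s5 (f v) v rfl h h'.symm
    · rw [Tout v _ h']
      exact hX.th v h (Ne.symm h')

end Pool.Agent.Work.MP_db9399_nc.helper1
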