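import Pool.Agent.Work.MP_db9399_nc.Base

/-!
# MP_db9399, THEOREM NC: block XREST (the remaining outer edges)
-/

set_option autoImplicit false
set_option linter.unusedSectionVars false

namespace Pool.Agent.Work.MP_db9399_nc.helper1

open Finset Classical
open Pool.Agent.Work.MP_db9399_all (nb)
open Pool.Agent.Work.MP_db9399_nc

universe u

variable {V : Type u} [Fintype V]

/-- the items: edges of `yg` which are not in `Kp`, oriented by the numbering `r` -/
def Itm (G Kp : SimpleGraph V) (f hp : V → V) (r : V → ℕ) (a : V × V) : Prop :=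
  (yg G f hp).Adj a.1 a.2 ∧ ¬ Kp.Adj a.1 a.2 ∧ r a.1 < r a.2

/-- the type of items -/
abbrev It (G Kp : SimpleGraph V) (f hp : V → V) (r : V → ℕ) := {a : V × V // Itm G Kp f hp r a}

/-- number of items at a vertex -/
theorem itm_at {G Kp : SimpleGraph V} {f hp : V → V} {r : V → ℕ} (v : V) :
    (univ.filter (fun i : It G Kp f hp r => i.1.1 = v ∨ i.1.2 = v)).card ≤
      (out G f v).card := by
  have hinj : ∀ i ∈ univ.filter (fun i : It G Kp f hp r =>
      i.1.1 = v ∨ i.1.2 = v), ∀ j ∈ univ.filter (fun i : It G Kp f hp r =>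
      i.1.1 = v ∨ i.1.2 = v),
      (if i.1.1 = v then i.1.2 else i.1.1) = (if j.1.1 = v then j.1.2 else j.1.1) → i = j := by
    rintro ⟨⟨a, b⟩, hi⟩ hi' ⟨⟨a', b'⟩, hj⟩ hj' h
    simp only [Finset.mem_filter, Finset.mem_univ, true_and] at hi' hj'
    simp only at h
    have h1 : r a < r b := hi.2.2
    have h2 : r a' < r b' := hj.2.2
    have hab : a ≠ b := hi.1.1.ne
    have hab' : a' ≠ b' := hj.1.1.ne
    apply Subtype.ext
    simp only [Prod.mk.injEq]
    by_cases ha : a = v
    · by_cases ha' : a' = v
      · rw [if_pos ha, if_pos ha'] at h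
        exact ⟨ha.trans ha'.symm, h⟩
      · rw [if_pos ha, if_neg ha'] at h
        rcases hj' with hj' | hj'
        · exact absurd hj' ha'
        · exfalso
          rw [ha, h] at h1
          rw [hj'] at h2
          omega
    · rcases hi' with hi' | hi'
      · exact absurd hi' ha
      · by_cases ha' : a' = v
        · rw [if_neg ha, if_pos ha'] at h
          exfalso
          rw [hi', h] at h1
          rw [ha'] at h2
          omega
        · rcases hj' with hj' | hj'
          · exact absurd hj' ha'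
          · rw [if_neg ha, if_neg ha'] at h
            exact ⟨h, hi'.trans hj'.symm⟩
  refine Finset.card_le_card_of_injOn
    (fun i => if i.1.1 = v then i.1.2 else i.1.1) ?_ ?_
  · rintro ⟨⟨a, b⟩, hi⟩ hi'
    simp only [Finset.coe_filter, Finset.mem_univ, true_and, Set.mem_ofPred_eq] at hi'
    simp only [Finset.mem_coe, mem_out]
    have h1 : G.Adj a b := hi.1.1
    have h2 : f a ≠ f b := hi.1.2.1
    by_cases ha : a = v
    · subst ha
      simp only [if_true]
      exact ⟨h1, h2.symm⟩
    · rcases hi' with hi' | hi'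
      · exact absurd hi' ha
      · subst hi'
        rw [if_neg ha]
        exact ⟨h1.symm, h2⟩
  · intro i hi j hj h
    exact hinj i (by simpa using hi) j (by simpa using hj) h

/-- block XREST -/
theorem stmt_XREST (hG : Stmt_GRS.{u}) : Stmt_XREST.{u} := by
  intro V _ G d x f hp c0 g c Kp t hc hcp hcc hK
  have hx1 := hc.x1
  have hxd := hc.xd
  -- numbering
  obtain ⟨r, hr⟩ : ∃ r : V → ℕ, Function.Injective r :=
    ⟨fun v => (Fintype.equivFin V v : ℕ), fun v w h => (Fintype.equivFin V).injective
      (Fin.ext h)⟩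
  have hcf : ∀ i : It G Kp f hp r, (univ.filter (fun j : It G Kp f hp r =>
      (i.1.1 = j.1.1 ∨ i.1.1 = j.1.2 ∨ i.1.2 = j.1.1 ∨ i.1.2 = j.1.2))).card ≤ 2 * x := by
    intro i
    have h1 : (univ.filter (fun j : It G Kp f hp r => j.1.1 = i.1.1 ∨ j.1.2 = i.1.1)).card ≤ x :=
      (itm_at (G := G) (Kp := Kp) (f := f) (hp := hp) (r := r) i.1.1).trans (hc.od i.1.1)
    have h2 : (univ.filter (fun j : It G Kp f hp r => j.1.1 = i.1.2 ∨ j.1.2 = i.1.2)).card ≤ x :=
      (itm_at (G := G) (Kp := Kp) (f := f) (hp := hp) (r := r) i.1.2).trans (hc.od i.1.2)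
    have h3 : (univ.filter (fun j : It G Kp f hp r =>
      (i.1.1 = j.1.1 ∨ i.1.1 = j.1.2 ∨ i.1.2 = j.1.1 ∨ i.1.2 = j.1.2))) ⊆
      univ.filter (fun j : It G Kp f hp r => j.1.1 = i.1.1 ∨ j.1.2 = i.1.1) ∪
      univ.filter (fun j : It G Kp f hp r => j.1.1 = i.1.2 ∨ j.1.2 = i.1.2) := by
      intro j hj
      simp only [Finset.mem_filter, Finset.mem_univ, true_and, Finset.mem_union] at hj ⊢
      rcases hj with h | h | h | h
      · exact Or.inl (Or.inl h.symm)
      · exact Or.inl (Or.inr h.symm)
      · exact Or.inr (Or.inl h.symm)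
      · exact Or.inr (Or.inr h.symm)
    have h4 := Finset.card_le_card h3
    have h5 := Finset.card_union_le (univ.filter (fun j : It G Kp f hp r => j.1.1 = i.1.1 ∨ j.1.2 = i.1.1))
      (univ.filter (fun j : It G Kp f hp r => j.1.1 = i.1.2 ∨ j.1.2 = i.1.2))
    omega
  have hgr : ∀ j : V, (univ.filter (fun i : It G Kp f hp r => f i.1.1 = j ∨ f i.1.2 = j)).card ≤
      (9 * x) * ((cl f j).card / 9 + 1) := by
    intro j
    have h1 : (univ.filter (fun i : It G Kp f hp r => f i.1.1 = j ∨ f i.1.2 = j)) ⊆
        (cl f j).biUnion (fun v => univ.filter (fun i : It G Kp f hp r => i.1.1 = v ∨ i.1.2 = v)) := by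
      intro i hi
      simp only [Finset.mem_filter, Finset.mem_univ, true_and, Finset.mem_biUnion, mem_cl] at hi ⊢
      rcases hi with h | h
      · exact ⟨i.1.1, h, Or.inl rfl⟩
      · exact ⟨i.1.2, h, Or.inr rfl⟩
    have h2 := Finset.card_le_card h1
    have h3 : ((cl f j).biUnion
        (fun v => univ.filter (fun i : It G Kp f hp r => i.1.1 = v ∨ i.1.2 = v))).card ≤
        (cl f j).card * x := by
      refine Finset.card_biUnion_le_card_mul _ _ _ ?_
      intro v _
      exact (itm_at (G := G) (Kp := Kp) (f := f) (hp := hp) (r := r) v).trans (hc.od v)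
    have h4 : (cl f j).card * x ≤ (9 * x) * ((cl f j).card / 9 + 1) := by
      have : (cl f j).card ≤ 9 * ((cl f j).card / 9 + 1) := by omega
      calc (cl f j).card * x ≤ (9 * ((cl f j).card / 9 + 1)) * x := Nat.mul_le_mul_right x this
        _ = _ := by ring
    omega
  obtain ⟨cf, hcfd⟩ : ∃ cf : It G Kp f hp r → It G Kp f hp r → Prop, ∀ i j, cf i j ↔
      (i.1.1 = j.1.1 ∨ i.1.1 = j.1.2 ∨ i.1.2 = j.1.1 ∨ i.1.2 = j.1.2) :=
    ⟨_, fun _ _ => Iff.rfl⟩
  obtain ⟨τ, hτ1, hτ2, hτ3⟩ := hG (ι := It G Kp f hp r) (β := V) cf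
    (fun i => f i.1.1) (fun i => f i.1.2) (fun j => (cl f j).card / 9 + 1)
    (9 * x) (2 * x) 4 (range (20 * x + 5))
    (fun i => {c i.1.1, c i.1.2, g i.1.1, g i.1.2})
    (by
      intro i j h
      rw [hcfd] at h ⊢
      rcases h with h | h | h | h
      · exact Or.inl h.symm
      · exact Or.inr (Or.inr (Or.inl h.symm))
      · exact Or.inr (Or.inl h.symm)
      · exact Or.inr (Or.inr (Or.inr h.symm)))
    (fun i => by
      refine le_trans (le_of_eq ?_) (hcf i)
      congr 1
      ext j
      simp only [Finset.mem_filter, Finset.mem_univ, true_and]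
      exact hcfd i j) (fun i => Finset.card_le_four) (fun j => by omega) hgr
    (by rw [Finset.card_range]; omega)
  simp only [Finset.mem_range, Finset.mem_insert, Finset.mem_singleton, not_or] at hτ1
  -- the colouring
  let t' : V → V → ℕ := fun v w =>
    if hp v = w ∧ hp v ≠ v then g v else if Kp.Adj v w then t v w else
      if h : Itm G Kp f hp r (v, w) then τ ⟨(v, w), h⟩ else
        if h : Itm G Kp f hp r (w, v) then τ ⟨(w, v), h⟩ else 0
  have hKy : ∀ v w, Kp.Adj v w → (yg G f hp).Adj v w := fun v w h => hK.le h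
  have hygs : ∀ v w, (yg G f hp).Adj v w → (yg G f hp).Adj w v := fun v w h => h.symm
  have tH : ∀ v, hp v ≠ v → t' v (hp v) = g v := by
    intro v hv
    show (if hp v = hp v ∧ hp v ≠ v then g v else _) = g v
    exact if_pos ⟨rfl, hv⟩
  have tK : ∀ v w, Kp.Adj v w → t' v w = t v w := by
    intro v w h
    have h1 := hKy v w h
    simp only [t']
    rw [if_neg (fun hh => h1.2.2.1 hh.1), if_pos h]
  have tI : ∀ v w, (yg G f hp).Adj v w → ¬ Kp.Adj v w → ∃ i : It G Kp f hp r,
      ((i.1.1 = v ∧ i.1.2 = w) ∨ (i.1.1 = w ∧ i.1.2 = v)) ∧ t' v w = τ i := by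
    intro v w h1 h2
    have hvw : v ≠ w := h1.1.ne
    have hne : ¬ (hp v = w ∧ hp v ≠ v) := fun hh => h1.2.2.1 hh.1
    by_cases h3 : r v < r w
    · have h4 : Itm G Kp f hp r (v, w) := ⟨h1, h2, h3⟩
      refine ⟨⟨(v, w), h4⟩, Or.inl ⟨rfl, rfl⟩, ?_⟩
      simp only [t']
      rw [if_neg hne, if_neg h2, dif_pos h4]
    · have h4 : Itm G Kp f hp r (w, v) := by
        refine ⟨h1.symm, fun hh => h2 hh.symm, ?_⟩
        have : r v ≠ r w := fun hh => hvw (hr hh)
        show r w < r v
        omega
      have h5 : ¬ Itm G Kp f hp r (v, w) := fun hh => h3 hh.2.2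
      refine ⟨⟨(w, v), h4⟩, Or.inr ⟨rfl, rfl⟩, ?_⟩
      simp only [t']
      rw [if_neg hne, if_neg h2, dif_neg h5, dif_pos h4]
  have hout : ∀ v, ∀ w ∈ out G f v, w = hp v ∨ (w ≠ hp v ∧ (yg G f hp).Adj v w) := by
    intro v w hw
    rw [mem_out] at hw
    by_cases h : w = hp v
    · exact Or.inl h
    · refine Or.inr ⟨h, hw.1, fun hh => hw.2 hh.symm, fun hh => h hh.symm, ?_⟩
      intro hh
      apply h
      rw [← hh, hc.hd.inv]
  have hpout : ∀ v, ∀ w ∈ out G f v, w = hp v → hp v ≠ v := by
    intro v w hw h hh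
    rw [mem_out] at hw
    exact hw.1.ne (by rw [h, hh])
  have hτitm : ∀ v w, ∀ i : It G Kp f hp r, ((i.1.1 = v ∧ i.1.2 = w) ∨ (i.1.1 = w ∧ i.1.2 = v)) →
      τ i < 20 * x + 5 ∧ τ i ≠ c v ∧ τ i ≠ g v := by
    intro v w i hi
    have h := hτ1 i
    refine ⟨h.1, ?_, ?_⟩
    · rcases hi with ⟨h1, _⟩ | ⟨_, h1⟩
      · rw [← h1]; exact h.2.1
      · rw [← h1]; exact h.2.2.1
    · rcases hi with ⟨h1, _⟩ | ⟨_, h1⟩
      · rw [← h1]; exact h.2.2.2.1
      · rw [← h1]; exact h.2.2.2.2
  have hKmem : ∀ v w, Kp.Adj v w → 20 * x + 5 ≤ t v w ∧ t v w < 460 * x + 15 := by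
    intro v w h
    have := hK.ec.mem v w h
    rwa [Finset.mem_Ico] at this
  refine ⟨t', ?_, ?_, ?_, ?_, ?_, ?_, ?_, ?_⟩
  · -- sym
    intro v w
    by_cases h1 : hp v = w ∧ hp v ≠ v
    · obtain ⟨h1, h2⟩ := h1
      have h3 : hp w = v := by rw [← h1, hc.hd.inv]
      have h4 : t' v w = g v := by rw [← h1]; exact tH v h2
      have h5 : t' w v = g w := by
        have := tH w (by rw [h3]; rw [← h1]; exact h2.symm)
        rwa [h3] at this
      rw [h4, h5, ← h1, hc.hd.gs]
    · have h1' : ¬ (hp w = v ∧ hp w ≠ w) := by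
        rintro ⟨h2, h3⟩
        apply h1
        have h4 : hp v = w := by rw [← h2, hc.hd.inv]
        refine ⟨h4, ?_⟩
        rw [h4, ← h2]
        exact h3.symm
      by_cases h2 : Kp.Adj v w
      · rw [tK v w h2, tK w v h2.symm, hK.ec.sym]
      · have h2' : ¬ Kp.Adj w v := fun hh => h2 hh.symm
        simp only [t']
        rw [if_neg h1, if_neg h1', if_neg h2, if_neg h2']
        by_cases h3 : Itm G Kp f hp r (v, w)
        · have h4 : ¬ Itm G Kp f hp r (w, v) := by
            intro hh
            have e1 : r v < r w := h3.2.2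
            have e2 : r w < r v := hh.2.2
            omega
          rw [dif_pos h3, dif_neg h4, dif_pos h3]
        · rw [dif_neg h3]
          by_cases h4 : Itm G Kp f hp r (w, v)
          · rw [dif_pos h4, dif_pos h4]
          · rw [dif_neg h4, dif_neg h4, dif_neg h3]
  · -- inj
    intro v w1 hw1 w2 hw2 heq
    by_contra hne
    have hw1' : w1 ∈ out G f v := hw1
    have hw2' : w2 ∈ out G f v := hw2
    -- reduce to pairs of types
    have key : ∀ a b, a ∈ out G f v → b ∈ out G f v → a ≠ b → a = hp v → t' v a ≠ t' v b := by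
      intro a b ha hb hab h
      have hv := hpout v a ha h
      rw [h, tH v hv]
      rcases hout v b hb with h' | ⟨_, h'⟩
      · exact absurd (h.trans h'.symm) hab
      · by_cases h2 : Kp.Adj v b
        · rw [tK v b h2]
          exact (hK.tg v b h2 hv).symm
        · obtain ⟨i, hi, hti⟩ := tI v b h' h2
          rw [hti]
          exact (hτitm v b i hi).2.2.symm
    have key2 : ∀ a b, Kp.Adj v a → (yg G f hp).Adj v b → ¬ Kp.Adj v b → t' v a ≠ t' v b := by
      intro a b ha hb hb'
      obtain ⟨i, hi, hti⟩ := tI v b hb hb'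
      rw [tK v a ha, hti]
      have h1 := (hKmem v a ha).1
      have h2 := (hτitm v b i hi).1
      omega
    rcases hout v w1 hw1' with h1 | ⟨_, h1⟩
    · exact key w1 w2 hw1' hw2' hne h1 heq
    · rcases hout v w2 hw2' with h2 | ⟨_, h2⟩
      · exact key w2 w1 hw2' hw1' (Ne.symm hne) h2 heq.symm
      · by_cases k1 : Kp.Adj v w1
        · by_cases k2 : Kp.Adj v w2
          · rw [tK v w1 k1, tK v w2 k2] at heq
            exact hne (hK.ec.inj v (by simpa [nb] using k1) (by simpa [nb] using k2) heq)
          · exact key2 w1 w2 k1 h2 k2 heq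
        · by_cases k2 : Kp.Adj v w2
          · exact key2 w2 w1 k2 h1 k1 heq.symm
          · obtain ⟨i, hi, hti⟩ := tI v w1 h1 k1
            obtain ⟨j, hj, htj⟩ := tI v w2 h2 k2
            rw [hti, htj] at heq
            have hij : i ≠ j := by
              rintro rfl
              rcases hi with ⟨a1, a2⟩ | ⟨a1, a2⟩ <;> rcases hj with ⟨b1, b2⟩ | ⟨b1, b2⟩
              · exact hne (a2.symm.trans b2)
              · exact h2.1.ne (a1.symm.trans b1)
              · exact h1.1.ne (b1.symm.trans a1)
              · exact hne (a1.symm.trans b1)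
            refine hτ2 i j hij ?_ heq
            rw [hcfd]
            rcases hi with ⟨a1, _⟩ | ⟨_, a1⟩ <;> rcases hj with ⟨b1, _⟩ | ⟨_, b1⟩
            · exact Or.inl (a1.trans b1.symm)
            · exact Or.inr (Or.inl (a1.trans b1.symm))
            · exact Or.inr (Or.inr (Or.inl (a1.trans b1.symm)))
            · exact Or.inr (Or.inr (Or.inr (a1.trans b1.symm)))
  · -- tc
    intro v w hw
    rcases hout v w hw with h | ⟨_, h⟩
    · have hv := hpout v w hw h
      rw [h, tH v hv, hcc v hv]
      exact (hc.hd.cg v hv).symm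
    · by_cases h2 : Kp.Adj v w
      · rw [tK v w h2]; exact hK.tc v w h2
      · obtain ⟨i, hi, hti⟩ := tI v w h h2
        rw [hti]; exact (hτitm v w i hi).2.1
  · -- th
    intro v hv _
    exact tH v hv
  · -- mem
    intro v w hw hne
    rw [Finset.mem_range]
    rcases hout v w hw with h | ⟨_, h⟩
    · exact absurd h hne
    · by_cases h2 : Kp.Adj v w
      · rw [tK v w h2]; exact (hKmem v w h2).2
      · obtain ⟨i, hi, hti⟩ := tI v w h h2
        rw [hti]
        have := (hτitm v w i hi).1
        omega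
  · -- tg
    intro v w hw hne hv
    rcases hout v w hw with h | ⟨_, h⟩
    · exact absurd h hne
    · by_cases h2 : Kp.Adj v w
      · rw [tK v w h2]; exact hK.tg v w h2 hv
      · obtain ⟨i, hi, hti⟩ := tI v w h h2
        rw [hti]; exact (hτitm v w i hi).2.2
  · -- load
    intro i b hd
    have hH := hc.hcard i
    by_cases hb : b < 20 * x + 5
    · -- no Kp edges
      have h1 : (cl f i).filter (fun v => ∃ w ∈ out G f v, t' v w = b) ⊆
          ((cl f i).filter (fun v => hp v ≠ v)) ∪
          (cl f i).filter (fun v => ∃ j : It G Kp f hp r, (j.1.1 = v ∨ j.1.2 = v) ∧ τ j = b) := by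
        intro v hv
        rw [Finset.mem_filter] at hv
        obtain ⟨hvc, w, hw, htb⟩ := hv
        rw [Finset.mem_union, Finset.mem_filter, Finset.mem_filter]
        rcases hout v w hw with h | ⟨_, h⟩
        · exact Or.inl ⟨hvc, hpout v w hw h⟩
        · by_cases h2 : Kp.Adj v w
          · exfalso
            rw [tK v w h2] at htb
            have := (hKmem v w h2).1
            omega
          · obtain ⟨j, hj, htj⟩ := tI v w h h2
            refine Or.inr ⟨hvc, j, ?_, htj.symm.trans htb⟩
            rcases hj with ⟨a, _⟩ | ⟨_, a⟩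
            · exact Or.inl a
            · exact Or.inr a
      have h2 : ((cl f i).filter
          (fun v => ∃ j : It G Kp f hp r, (j.1.1 = v ∨ j.1.2 = v) ∧ τ j = b)).card ≤
          (univ.filter
            (fun j : It G Kp f hp r => (f j.1.1 = i ∨ f j.1.2 = i) ∧ τ j = b)).card := by
        refine le_trans (Finset.card_le_card (t := (univ.filter
            (fun j : It G Kp f hp r => (f j.1.1 = i ∨ f j.1.2 = i) ∧ τ j = b)).image
            (fun j => if f j.1.1 = i then j.1.1 else j.1.2)) ?_) Finset.card_image_le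
        intro v hv
        rw [Finset.mem_filter, mem_cl] at hv
        obtain ⟨hvi, j, hj, hjb⟩ := hv
        rw [Finset.mem_image]
        have hfj : f j.1.1 ≠ f j.1.2 := j.2.1.2.1
        refine ⟨j, ?_, ?_⟩
        · rw [Finset.mem_filter]
          refine ⟨Finset.mem_univ _, ?_, hjb⟩
          rcases hj with hj | hj
          · left; rw [hj]; exact hvi
          · right; rw [hj]; exact hvi
        · rcases hj with hj | hj
          · rw [if_pos (by rw [hj]; exact hvi)]; exact hj
          · rw [if_neg (fun hh => hfj (hh.trans (hvi.symm.trans (congrArg f hj.symm))))]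
            exact hj
      have h3 := Finset.card_le_card h1
      have h4 := Finset.card_union_le ((cl f i).filter (fun v => hp v ≠ v))
        ((cl f i).filter (fun v => ∃ j : It G Kp f hp r, (j.1.1 = v ∨ j.1.2 = v) ∧ τ j = b))
      have h5 : (univ.filter
            (fun j : It G Kp f hp r => (f j.1.1 = i ∨ f j.1.2 = i) ∧ τ j = b)).card ≤
          (cl f i).card / 9 + 1 := hτ3 i b
      omega
    · -- no items
      have h1 : (cl f i).filter (fun v => ∃ w ∈ out G f v, t' v w = b) ⊆
          ((cl f i).filter (fun v => hp v ≠ v)) ∪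
          (cl f i).filter (fun v => ∃ w, Kp.Adj v w ∧ t v w = b) := by
        intro v hv
        rw [Finset.mem_filter] at hv
        obtain ⟨hvc, w, hw, htb⟩ := hv
        rw [Finset.mem_union, Finset.mem_filter, Finset.mem_filter]
        rcases hout v w hw with h | ⟨_, h⟩
        · exact Or.inl ⟨hvc, hpout v w hw h⟩
        · by_cases h2 : Kp.Adj v w
          · exact Or.inr ⟨hvc, w, h2, (tK v w h2).symm.trans htb⟩
          · exfalso
            obtain ⟨j, hj, htj⟩ := tI v w h h2
            have := (hτitm v w j hj).1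
            omega
      have h3 := Finset.card_le_card h1
      have h4 := Finset.card_union_le ((cl f i).filter (fun v => hp v ≠ v))
        ((cl f i).filter (fun v => ∃ w, Kp.Adj v w ∧ t v w = b))
      have h5 := hK.load i b (by omega)
      omega
  · -- par
    intro i hd
    rcases hK.par i hd with h | h
    · exact Or.inl h
    · refine Or.inr ?_
      have hE2 : (Ico (20 * x + 5) (460 * x + 15)).card = 440 * x + 10 := by
        rw [Nat.card_Ico]; omega
      rw [hE2] at h
      rw [Finset.card_range]
      have hsub : (range (460 * x + 15)).filter (fun b => Odd ((cl f i).filter (fun v => c v ≠ b ∧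
          ∀ w ∈ out G f v, t' v w ≠ b)).card) ⊆
          range (20 * x + 5) ∪ (Ico (20 * x + 5) (460 * x + 15)).filter (fun b =>
            Odd ((cl f i).filter (fun v => c v ≠ b ∧
            ¬ (hp v ≠ v ∧ f (hp v) ≠ f v ∧ g v = b) ∧
            ∀ w, ¬ (Kp.Adj v w ∧ t v w = b))).card) := by
        intro b hb
        rw [Finset.mem_filter, Finset.mem_range] at hb
        rw [Finset.mem_union, Finset.mem_range, Finset.mem_filter, Finset.mem_Ico]
        by_cases hb2 : b < 20 * x + 5
        · exact Or.inl hb2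
        · refine Or.inr ⟨⟨by omega, hb.1⟩, ?_⟩
          have heq : (cl f i).filter (fun v => c v ≠ b ∧ ∀ w ∈ out G f v, t' v w ≠ b) =
              (cl f i).filter (fun v => c v ≠ b ∧
            ¬ (hp v ≠ v ∧ f (hp v) ≠ f v ∧ g v = b) ∧
            ∀ w, ¬ (Kp.Adj v w ∧ t v w = b)) := by
            apply Finset.filter_congr
            intro v _
            constructor
            · rintro ⟨h1, h2⟩
              refine ⟨h1, ?_, ?_⟩
              · rintro ⟨e1, e2, e3⟩
                have hm : hp v ∈ out G f v := mem_out.mpr ⟨hc.hd.adj v e1, e2⟩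
                exact h2 (hp v) hm ((tH v e1).trans e3)
              · rintro w ⟨e1, e2⟩
                have hy := hKy v w e1
                have hm : w ∈ out G f v := mem_out.mpr ⟨hy.1, hy.2.1.symm⟩
                exact h2 w hm ((tK v w e1).trans e2)
            · rintro ⟨h1, h2, h3⟩
              refine ⟨h1, ?_⟩
              intro w hw htb
              rcases hout v w hw with h | ⟨_, h⟩
              · have hv := hpout v w hw h
                apply h2
                refine ⟨hv, ?_, ?_⟩
                · rw [← h]; exact (mem_out.mp hw).2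
                · rw [← tH v hv, ← h]; exact htb
              · by_cases k : Kp.Adj v w
                · exact h3 w ⟨k, (tK v w k).symm.trans htb⟩
                · obtain ⟨j, hj, htj⟩ := tI v w h k
                  have := (hτitm v w j hj).1
                  omega
          rw [← heq]; exact hb.2
      have h1 := Finset.card_le_card hsub
      have h2 := Finset.card_union_le (range (20 * x + 5))
        ((Ico (20 * x + 5) (460 * x + 15)).filter (fun b =>
            Odd ((cl f i).filter (fun v => c v ≠ b ∧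
            ¬ (hp v ≠ v ∧ f (hp v) ≠ f v ∧ g v = b) ∧
            ∀ w, ¬ (Kp.Adj v w ∧ t v w = b))).card))
      rw [Finset.card_range] at h2
      omega

end Pool.Agent.Work.MP_db9399_nc.helper1
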